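import Mathlib

/-! Definitions for the disproof of finite cotype of `L_{4/3} ⊗π L_{4/3}` (MP_f9ce33_an, S06782). -/

set_option autoImplicit false

open scoped BigOperators
open MeasureTheory

namespace Pool.Agent.Cotype

/-- The `ℓ_{4/3}` norm on a finite type. -/
noncomputable def n43 {X : Type} [Fintype X] (f : X → ℝ) : ℝ :=
  (∑ x, |f x| ^ (4/3 : ℝ)) ^ (3/4 : ℝ)

/-- The matrix `T` has norm at most `1` as a bilinear form on `ℓ_{4/3}(X) × ℓ_{4/3}(Y)`. -/
def BB {X Y : Type} [Fintype X] [Fintype Y] (T : X → Y → ℝ) : Prop :=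
  ∀ (f : X → ℝ) (g : Y → ℝ), |∑ x, ∑ y, T x y * (f x * g y)| ≤ n43 f * n43 g

/-- `u` lies in the (algebraic) unit ball of `ℓ_{4/3}(X) ⊗π ℓ_{4/3}(Y)`. -/
def PB {X Y : Type} [Fintype X] [Fintype Y] (u : X → Y → ℝ) : Prop :=
  ∃ (m : ℕ) (w : Fin m → ℝ) (f : Fin m → X → ℝ) (g : Fin m → Y → ℝ),
    (∑ j, |w j| ≤ 1) ∧ (∀ j, n43 (f j) ≤ 1) ∧ (∀ j, n43 (g j) ≤ 1) ∧
    ∀ x y, u x y = ∑ j, w j * (f j x * g j y)

/-- The codewords used in the Riesz product argument. -/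
def code {n : ℕ} (i : Fin n) (p : Fin n × Fin n) : Fin 3 :=
  if p.1 = i then 1 else if p.2 = i then 2 else 0

/-- The exponent `4/3`. -/
noncomputable def p43 : ENNReal := 4 / 3

/-- Lebesgue measure on `[0,1]`. -/
noncomputable def mu01 : Measure ℝ := MeasureTheory.volume.restrict (Set.Icc (0:ℝ) 1)

instance fact43 : Fact (1 ≤ p43) := ⟨by
  unfold p43
  rw [ENNReal.le_div_iff_mul_le (by norm_num) (by norm_num)]
  norm_num⟩

section Field

variable {K : Type} [Field K] [Fintype K]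

/-- The phase-space chart transform: `R c (l,m,a,b) = ∑_x ψ(b x) c(x, l x + m x² + a)`. -/
noncomputable def Rop (ψ : K → ℝ) (c : K × K → ℝ) : K × K × K × K → ℝ :=
  fun t => ∑ x : K, ψ (t.2.2.2 * x) * c (x, t.1 * x + t.2.1 * x ^ 2 + t.2.2.1)

/-- The entries of the (real, symmetric, orthogonal) Fourier matrix of `K × K`. -/
noncomputable def Hm (ψ : K → ℝ) (p q : K × K) : ℝ :=
  (1 / (Fintype.card K : ℝ)) * ψ (p.1 * q.1 + p.2 * q.2)

/-- `ψ` is a real nontrivial additive character of `K` with values `±1`. -/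
structure IsChar (ψ : K → ℝ) : Prop where
  pm : ∀ x, ψ x = 1 ∨ ψ x = -1
  add : ∀ x y, ψ (x + y) = ψ x * ψ y
  nontriv : ∃ x, ψ x = -1

end Field

end Pool.Agent.Cotype
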