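import Pool.Agent.Helper32.Cotype.Defs

/-! Existence of large fields with a real character; elementary character sums. -/

set_option autoImplicit false

open scoped BigOperators

namespace Pool.Agent.Cotype

theorem zmod2_cases : ∀ a : ZMod 2, a = 0 ∨ a = 1 := by decide

theorem zmod2_key (a b : ZMod 2) : (if a + b = 0 then (1:ℝ) else -1)
          = (if a = 0 then (1:ℝ) else -1) * (if b = 0 then (1:ℝ) else -1) := by
  have h11 : (1 : ZMod 2) + 1 = 0 := by decide
  rcases zmod2_cases a with rfl | rfl <;> rcases zmod2_cases b with rfl | rfl <;> simp [h11]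

theorem exists_field (N : ℝ) : ∃ (K : Type) (_ : Field K) (_ : Fintype K) (_ : CharP K 2)
    (ψ : K → ℝ), IsChar ψ ∧ N ≤ (Fintype.card K : ℝ) := by
  obtain ⟨k, hk⟩ := exists_nat_ge N
  have hk1 : k + 1 ≠ 0 := by omega
  have : Fact (Nat.Prime 2) := ⟨Nat.prime_two⟩
  let K := GaloisField 2 (k + 1)
  have : Fintype K := Fintype.ofFinite K
  have hcard : Fintype.card K = 2 ^ (k + 1) := by
    rw [← Nat.card_eq_fintype_card]; exact GaloisField.card 2 (k + 1) hk1
  obtain ⟨f, hf⟩ : ∃ f : Module.Dual (ZMod 2) K, f 1 ≠ 0 := by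
    by_contra h
    push Not at h
    have := (Module.forall_dual_apply_eq_zero_iff (ZMod 2) (1 : K)).1 h
    exact one_ne_zero this
  refine ⟨K, inferInstance, inferInstance, inferInstance, fun x => if f x = 0 then 1 else -1, ?_, ?_⟩
  · refine ⟨fun x => ?_, fun x y => ?_, ⟨1, by simp [hf]⟩⟩
    · by_cases h : f x = 0 <;> simp [h]
    · have key : ∀ a b : ZMod 2, (if a + b = 0 then (1:ℝ) else -1)
          = (if a = 0 then (1:ℝ) else -1) * (if b = 0 then (1:ℝ) else -1) := by
        intro a b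
        exact zmod2_key a b
      simpa [map_add] using key (f x) (f y)
  · rw [hcard]
    refine hk.trans ?_
    push_cast
    have h1 : (k : ℝ) ≤ 2 ^ (k + 1) := by
      have : k < 2 ^ (k+1) := lt_of_lt_of_le (Nat.lt_two_pow_self) (Nat.pow_le_pow_right (by norm_num) (by omega))
      exact_mod_cast this.le
    exact h1

section

variable {K : Type} [Field K] {ψ : K → ℝ}

theorem IsChar.zero (hψ : IsChar ψ) : ψ 0 = 1 := by
  have h := hψ.add 0 0
  rw [add_zero] at h
  rcases hψ.pm 0 with h0 | h0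
  · exact h0
  · rw [h0] at h; norm_num at h

theorem IsChar.sq (hψ : IsChar ψ) (x : K) : ψ x * ψ x = 1 := by
  rcases hψ.pm x with h | h <;> rw [h] <;> norm_num

variable [Fintype K]

/-- a `±1`-valued additive character sums to `0` or `card`. -/
theorem sum_char (θ : K → ℝ) (hpm : ∀ x, θ x = 1 ∨ θ x = -1) (hadd : ∀ x y, θ (x + y) = θ x * θ y) :
    ∑ x, θ x = 0 ∨ ∑ x, θ x = Fintype.card K := by
  by_cases h : ∃ a, θ a = -1
  · left
    obtain ⟨a, ha⟩ := h
    have h1 : ∑ x, θ (x + a) = ∑ x, θ x := Fintype.sum_equiv (Equiv.addRight a) _ _ (fun x => rfl)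
    have h2 : ∑ x, θ (x + a) = - ∑ x, θ x := by
      rw [← Finset.sum_neg_distrib]
      refine Finset.sum_congr rfl fun x _ => ?_
      rw [hadd, ha]; ring
    linarith
  · right
    push Not at h
    have : ∀ x, θ x = 1 := fun x => (hpm x).resolve_right (h x)
    simp [this]

theorem IsChar.sum_zero (hψ : IsChar ψ) : ∑ x, ψ x = 0 := by
  obtain ⟨a, ha⟩ := hψ.nontriv
  have h1 : ∑ x, ψ (x + a) = ∑ x, ψ x := Fintype.sum_equiv (Equiv.addRight a) _ _ (fun x => rfl)
  have h2 : ∑ x, ψ (x + a) = - ∑ x, ψ x := by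
    rw [← Finset.sum_neg_distrib]
    refine Finset.sum_congr rfl fun x _ => ?_
    rw [hψ.add, ha]; ring
  linarith

theorem IsChar.sum_mul (hψ : IsChar ψ) [DecidableEq K] (y : K) :
    ∑ x, ψ (x * y) = if y = 0 then (Fintype.card K : ℝ) else 0 := by
  split_ifs with h
  · subst h; simp [hψ.zero]
  · rw [← hψ.sum_zero]
    exact Fintype.sum_equiv (Equiv.mulRight₀ y h) _ _ (fun x => rfl)

end

end Pool.Agent.Cotype
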