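import Pool.Agent.Helper32.Cotype.Char

/-! Elementary facts about the Fourier matrix and the chart transform. -/

set_option autoImplicit false

open scoped BigOperators

namespace Pool.Agent.Cotype

section

variable {K : Type} [Field K] [Fintype K] {ψ : K → ℝ}

theorem cardQ_pos : (0:ℝ) < (Fintype.card K : ℝ) := by
  exact_mod_cast Fintype.card_pos

theorem IsChar.sum_mul' (hψ : IsChar ψ) [DecidableEq K] (y : K) :
    ∑ x, ψ (y * x) = if y = 0 then (Fintype.card K : ℝ) else 0 := by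
  rw [← hψ.sum_mul y]
  exact Finset.sum_congr rfl fun x _ => by rw [mul_comm]

theorem sum_dot (hψ : IsChar ψ) [DecidableEq K] (α β : K) :
    ∑ r : K × K, ψ (α * r.1 + β * r.2) =
      if α = 0 ∧ β = 0 then (Fintype.card K : ℝ) ^ 2 else 0 := by
  rw [Fintype.sum_prod_type]
  have : ∀ x : K, ∑ y : K, ψ (α * x + β * y) = ψ (α * x) * ∑ y, ψ (β * y) := by
    intro x
    rw [Finset.mul_sum]
    exact Finset.sum_congr rfl fun y _ => hψ.add _ _
  simp only [this]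
  rw [← Finset.sum_mul, hψ.sum_mul', hψ.sum_mul']
  by_cases h1 : α = 0 <;> by_cases h2 : β = 0 <;> simp [h1, h2, pow_two]

theorem Hm_symm (p q : K × K) : Hm ψ p q = Hm ψ q p := by
  unfold Hm
  rw [mul_comm p.1, mul_comm p.2]

theorem Hm_abs (hψ : IsChar ψ) (p q : K × K) : |Hm ψ p q| ≤ 1 / (Fintype.card K : ℝ) := by
  unfold Hm
  rw [abs_mul]
  have h1 : |ψ (p.1 * q.1 + p.2 * q.2)| = 1 := by
    rcases hψ.pm (p.1 * q.1 + p.2 * q.2) with h | h <;> rw [h] <;> norm_num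
  rw [h1, mul_one, abs_of_nonneg (by positivity)]

variable [CharP K 2]

theorem add_eq_zero_iff_eq (a b : K) : a + b = 0 ↔ a = b := by
  rw [CharTwo.add_eq_zero]

theorem Hm_orth (hψ : IsChar ψ) [DecidableEq K] (p q : K × K) :
    ∑ r, Hm ψ p r * Hm ψ r q = if p = q then 1 else 0 := by
  have h1 : ∀ r : K × K, Hm ψ p r * Hm ψ r q =
      (1 / (Fintype.card K : ℝ)) ^ 2 * ψ ((p.1 + q.1) * r.1 + (p.2 + q.2) * r.2) := by
    intro r
    unfold Hm
    have : ψ ((p.1 + q.1) * r.1 + (p.2 + q.2) * r.2)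
        = ψ (p.1 * r.1 + p.2 * r.2) * ψ (r.1 * q.1 + r.2 * q.2) := by
      rw [← hψ.add]; congr 1; ring
    rw [this]; ring
  simp only [h1]
  rw [← Finset.mul_sum, sum_dot hψ]
  have hQ := (cardQ_pos (K := K)).ne'
  simp only [add_eq_zero_iff_eq, Prod.ext_iff]
  split_ifs with h
  · field_simp
  · simp

theorem Hm_sandwich (hψ : IsChar ψ) (p q : K × K) :
    ∑ r, Hm ψ p r * ψ (r.1 * r.2) * Hm ψ r q =
      (1 / (Fintype.card K : ℝ)) * ψ ((p.1 + q.1) * (p.2 + q.2)) := by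
  classical
  have h1 : ∀ r : K × K, Hm ψ p r * ψ (r.1 * r.2) * Hm ψ r q =
      (1 / (Fintype.card K : ℝ)) ^ 2 * (ψ ((p.1 + q.1) * r.1 + (p.2 + q.2) * r.2) * ψ (r.1 * r.2)) := by
    intro r
    unfold Hm
    have : ψ ((p.1 + q.1) * r.1 + (p.2 + q.2) * r.2)
        = ψ (p.1 * r.1 + p.2 * r.2) * ψ (r.1 * q.1 + r.2 * q.2) := by
      rw [← hψ.add]; congr 1; ring
    rw [this]; ring
  simp only [h1]
  rw [← Finset.mul_sum, Fintype.sum_prod_type_right]
  have h2 : ∀ y : K, ∑ x : K, ψ ((p.1 + q.1) * x + (p.2 + q.2) * y) * ψ (x * y)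
      = ψ ((p.2 + q.2) * y) * (if (p.1 + q.1) + y = 0 then (Fintype.card K : ℝ) else 0) := by
    intro y
    rw [← hψ.sum_mul, Finset.mul_sum]
    refine Finset.sum_congr rfl fun x _ => ?_
    rw [← hψ.add, ← hψ.add]
    congr 1; ring
  simp only [h2]
  have h3 : ∀ y : K, ((p.1 + q.1) + y = 0) ↔ y = p.1 + q.1 := by
    intro y; rw [add_eq_zero_iff_eq]; exact eq_comm
  simp only [h3, mul_ite, mul_zero]
  rw [Finset.sum_ite_eq' Finset.univ (p.1 + q.1)]
  simp only [Finset.mem_univ, if_true]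
  have hQ := (cardQ_pos (K := K)).ne'
  rw [mul_comm (p.1 + q.1)]
  field_simp

theorem Hm_sandwich_abs (hψ : IsChar ψ) (p q : K × K) :
    |∑ r, Hm ψ p r * ψ (r.1 * r.2) * Hm ψ r q| ≤ 1 / (Fintype.card K : ℝ) := by
  rw [Hm_sandwich hψ, abs_mul]
  have h1 : |ψ ((p.1 + q.1) * (p.2 + q.2))| = 1 := by
    rcases hψ.pm ((p.1 + q.1) * (p.2 + q.2)) with h | h <;> rw [h] <;> norm_num
  rw [h1, mul_one, abs_of_nonneg (by positivity)]

theorem Hm_sandwich_diag (hψ : IsChar ψ) (p : K × K) :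
    ∑ r, Hm ψ p r * ψ (r.1 * r.2) * Hm ψ r p = 1 / (Fintype.card K : ℝ) := by
  rw [Hm_sandwich hψ, CharTwo.add_self_eq_zero, zero_mul, hψ.zero, mul_one]

omit [CharP K 2] in
theorem sum_s (hψ : IsChar ψ) : ∑ r : K × K, ψ (r.1 * r.2) = Fintype.card K := by
  classical
  rw [Fintype.sum_prod_type_right]
  have : ∀ y : K, ∑ x : K, ψ (x * y) = if y = 0 then (Fintype.card K : ℝ) else 0 := fun y => hψ.sum_mul y
  simp only [this]
  simp

omit [CharP K 2] in
theorem Rop_single_mem (hψ : IsChar ψ) [DecidableEq K] (p : K × K) (t : K × K × K × K) :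
    Rop ψ (Pi.single p 1) t = 0 ∨ Rop ψ (Pi.single p 1) t = 1 ∨ Rop ψ (Pi.single p 1) t = -1 := by
  unfold Rop
  have h : ∀ x : K, ψ (t.2.2.2 * x) * (Pi.single p (1:ℝ) : K × K → ℝ) (x, t.1 * x + t.2.1 * x ^ 2 + t.2.2.1)
      = if x = p.1 then (ψ (t.2.2.2 * x) * (if t.1 * x + t.2.1 * x ^ 2 + t.2.2.1 = p.2 then 1 else 0)) else 0 := by
    intro x
    rw [Pi.single_apply]
    by_cases h1 : x = p.1
    · by_cases h2 : t.1 * x + t.2.1 * x ^ 2 + t.2.2.1 = p.2
      · rw [if_pos (Prod.ext h1 h2), if_pos h1, if_pos h2]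
      · rw [if_neg (fun h => h2 (by rw [← h])), if_pos h1, if_neg h2]
    · rw [if_neg (fun h => h1 (by rw [← h])), if_neg h1, mul_zero]
  simp only [h]
  rw [Finset.sum_ite_eq' Finset.univ p.1]
  simp only [Finset.mem_univ, if_true]
  split_ifs
  · rcases hψ.pm (t.2.2.2 * p.1) with h | h <;> rw [h] <;> simp
  · simp

theorem Rop_Hm_mem (hψ : IsChar ψ) (p : K × K) (t : K × K × K × K) :
    Rop ψ (Hm ψ p) t = 0 ∨ Rop ψ (Hm ψ p) t = 1 ∨ Rop ψ (Hm ψ p) t = -1 := by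
  unfold Rop Hm
  let θ : K → ℝ := fun x => ψ (t.2.2.2 * x + p.1 * x + p.2 * (t.1 * x + t.2.1 * x ^ 2))
  have hθpm : ∀ x, θ x = 1 ∨ θ x = -1 := fun x => hψ.pm _
  have hθadd : ∀ x y, θ (x + y) = θ x * θ y := by
    intro x y
    simp only [θ]
    rw [← hψ.add, CharTwo.add_sq]
    congr 1; ring
  have hsum : ∑ x : K, ψ (t.2.2.2 * x) * (1 / (Fintype.card K : ℝ) *
        ψ (p.1 * (x, t.1 * x + t.2.1 * x ^ 2 + t.2.2.1).1 + p.2 * (x, t.1 * x + t.2.1 * x ^ 2 + t.2.2.1).2))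
      = (1 / (Fintype.card K : ℝ)) * ψ (p.2 * t.2.2.1) * ∑ x, θ x := by
    rw [Finset.mul_sum]
    refine Finset.sum_congr rfl fun x _ => ?_
    have : ψ (t.2.2.2 * x) * ψ (p.1 * x + p.2 * (t.1 * x + t.2.1 * x ^ 2 + t.2.2.1))
        = ψ (p.2 * t.2.2.1) * θ x := by
      simp only [θ]
      rw [← hψ.add, ← hψ.add]
      congr 1; ring
    simp only
    calc _ = 1 / (Fintype.card K : ℝ) * (ψ (t.2.2.2 * x) * ψ (p.1 * x + p.2 * (t.1 * x + t.2.1 * x ^ 2 + t.2.2.1))) := by ring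
      _ = _ := by rw [this]; ring
  rw [hsum]
  have hQ := (cardQ_pos (K := K)).ne'
  rcases sum_char θ hθpm hθadd with h | h
  · left; rw [h, mul_zero]
  · right
    rw [h]
    rcases hψ.pm (p.2 * t.2.2.1) with h' | h' <;> rw [h'] <;> field_simp <;> simp

omit [CharP K 2] in
theorem Rop_linear [DecidableEq K] (c : K × K → ℝ) (t : K × K × K × K) :
    Rop ψ c t = ∑ p, c p * Rop ψ (Pi.single p 1) t := by
  unfold Rop
  simp only [Finset.mul_sum]
  rw [Finset.sum_comm]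
  refine Finset.sum_congr rfl fun x _ => ?_
  have : ∀ p : K × K, c p * (ψ (t.2.2.2 * x) * (Pi.single p (1:ℝ) : K × K → ℝ) (x, t.1 * x + t.2.1 * x ^ 2 + t.2.2.1))
      = if p = (x, t.1 * x + t.2.1 * x ^ 2 + t.2.2.1) then ψ (t.2.2.2 * x) * c p else 0 := by
    intro p
    rw [Pi.single_apply]
    by_cases h : p = (x, t.1 * x + t.2.1 * x ^ 2 + t.2.2.1)
    · rw [if_pos h, if_pos h.symm]; ring
    · rw [if_neg h, if_neg (fun h' => h h'.symm)]; ring
  simp only [this]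
  rw [Finset.sum_ite_eq' Finset.univ]
  simp

end

/-- Hölder's inequality for the exponents `4/3` and `4`. -/
theorem holder43 {X : Type} [Fintype X] (f g : X → ℝ) :
    (∑ x, f x * g x) ^ 4 ≤ n43 f ^ 4 * ∑ x, (g x) ^ 4 := by
  have h1 : |∑ x, f x * g x| ≤ n43 f * (∑ x, (g x) ^ 4) ^ (1/4 : ℝ) := by
    have h := Real.inner_le_Lp_mul_Lq Finset.univ (fun x => |f x|) (fun x => |g x|)
      (p := 4/3) (q := 4) ⟨by norm_num, by norm_num, by norm_num⟩
    have h2 : |∑ x, f x * g x| ≤ ∑ x, |f x| * |g x| := by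
      refine (Finset.abs_sum_le_sum_abs _ _).trans (le_of_eq ?_)
      exact Finset.sum_congr rfl fun x _ => abs_mul _ _
    refine h2.trans (h.trans (le_of_eq ?_))
    unfold n43
    simp only [abs_abs]
    congr 1
    · norm_num
    · congr 1
      refine Finset.sum_congr rfl fun x _ => ?_
      rw [show (4:ℝ) = ((4:ℕ):ℝ) by norm_num, Real.rpow_natCast]
      exact (show Even 4 by decide).pow_abs _
  have h0 : 0 ≤ n43 f := by unfold n43; positivity
  have hs : 0 ≤ ∑ x, (g x) ^ 4 := Finset.sum_nonneg fun x _ => by positivity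
  have h3 : |∑ x, f x * g x| ^ 4 ≤ (n43 f * (∑ x, (g x) ^ 4) ^ (1/4 : ℝ)) ^ 4 :=
    pow_le_pow_left₀ (abs_nonneg _) h1 4
  rw [(show Even 4 by decide).pow_abs, mul_pow, ← Real.rpow_natCast ((∑ x, (g x) ^ 4) ^ (1/4 : ℝ)) 4,
    ← Real.rpow_mul hs] at h3
  norm_num at h3
  exact h3

theorem n43_nonneg {X : Type} [Fintype X] (f : X → ℝ) : 0 ≤ n43 f := by unfold n43; positivity

theorem n43_smul {X : Type} [Fintype X] (a : ℝ) (f : X → ℝ) :
    n43 (fun x => a * f x) = |a| * n43 f := by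
  unfold n43
  have : ∀ x, |a * f x| ^ (4/3 : ℝ) = |a| ^ (4/3 : ℝ) * |f x| ^ (4/3 : ℝ) := by
    intro x
    rw [abs_mul, Real.mul_rpow (abs_nonneg _) (abs_nonneg _)]
  simp only [this]
  rw [← Finset.mul_sum, Real.mul_rpow (by positivity) (by positivity), ← Real.rpow_mul (abs_nonneg _)]
  norm_num

theorem n43_eq_zero {X : Type} [Fintype X] (f : X → ℝ) (h : n43 f = 0) : f = 0 := by
  unfold n43 at h
  have h0 : 0 ≤ ∑ x, |f x| ^ (4/3 : ℝ) := Finset.sum_nonneg fun x _ => by positivity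
  have h1 : ∑ x, |f x| ^ (4/3 : ℝ) = 0 := by
    by_contra hne
    have hpos : 0 < ∑ x, |f x| ^ (4/3 : ℝ) := lt_of_le_of_ne h0 (Ne.symm hne)
    have := Real.rpow_pos_of_pos hpos (3/4)
    rw [h] at this
    exact lt_irrefl _ this
  funext x
  have h2 := (Finset.sum_eq_zero_iff_of_nonneg (fun x _ => by positivity)).1 h1 x (Finset.mem_univ x)
  have h3 : |f x| = 0 := by
    by_contra hne
    have hpos : 0 < |f x| := lt_of_le_of_ne (abs_nonneg _) (Ne.symm hne)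
    have := Real.rpow_pos_of_pos hpos (4/3)
    rw [h2] at this
    exact lt_irrefl _ this
  simpa using h3

end Pool.Agent.Cotype
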