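import Pool.Agent.Helper32.Cotype.Core1
import Pool.Agent.Helper16.Cotype.FourthMoment
import Pool.Agent.Helper64.Cotype.Planch
import Pool.Agent.Helper64.Cotype.LpEmbed
import Pool.Agent.Helper34.Cotype.BBPi
import Pool.Agent.Helper23.Cotype.Riesz
import Pool.Agent.Helper17.Cotype.KeyBound

/-! `ℓ_∞³` embeds almost isometrically in `ℓ_{4/3}(X) ⊗π ℓ_{4/3}(X)`. -/

set_option autoImplicit false

open scoped BigOperators

namespace Pool.Agent.Cotype

theorem PB_of_fintype {ι X Y : Type} [Fintype ι] [Fintype X] [Fintype Y] (u : X → Y → ℝ)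
    (w : ι → ℝ) (f : ι → X → ℝ) (g : ι → Y → ℝ) (hw : ∑ j, |w j| ≤ 1)
    (hf : ∀ j, n43 (f j) ≤ 1) (hg : ∀ j, n43 (g j) ≤ 1)
    (hu : ∀ x y, u x y = ∑ j, w j * (f j x * g j y)) : PB u := by
  let e := (Fintype.equivFin ι).symm
  refine ⟨Fintype.card ι, fun j => w (e j), fun j => f (e j), fun j => g (e j), ?_, ?_, ?_, ?_⟩
  · rwa [Equiv.sum_comp e (fun j => |w j|)]
  · intro j; exact hf _
  · intro j; exact hg _
  · intro x y
    rw [hu, ← Equiv.sum_comp e (fun j => w j * (f j x * g j y))]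

section

variable {K : Type} [Field K] [Fintype K] [DecidableEq K] [CharP K 2] {ψ : K → ℝ}

/-- the scaled transform of a vector, an element of `ℓ_{4/3}`. -/
noncomputable def Fv (ψ : K → ℝ) (c : K × K → ℝ) : K × K × K × K → ℝ :=
  fun t => (Fintype.card K : ℝ) ^ (-(9/4) : ℝ) * Rop ψ c t

/-- the adjoint of the transform. -/
noncomputable def Pv (ψ : K → ℝ) (f : K × K × K × K → ℝ) : K × K → ℝ :=
  fun p => (Fintype.card K : ℝ) ^ (-(3/4) : ℝ) * ∑ t, f t * Rop ψ (Pi.single p 1) t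

omit [DecidableEq K] [CharP K 2] in
theorem pow_ab : (Fintype.card K : ℝ) ^ (-(3/4) : ℝ) * (Fintype.card K : ℝ) ^ (-(9/4) : ℝ)
    * (Fintype.card K : ℝ) ^ 3 = 1 := by
  have hQ := cardQ_pos (K := K)
  rw [← Real.rpow_add hQ, ← Real.rpow_natCast, ← Real.rpow_add hQ]
  norm_num

omit [DecidableEq K] [CharP K 2] in
theorem pow_b4 : ((Fintype.card K : ℝ) ^ (-(3/4) : ℝ)) ^ 4 * (Fintype.card K : ℝ) ^ 3 = 1 := by
  have hQ := cardQ_pos (K := K)
  rw [← Real.rpow_natCast, ← Real.rpow_mul hQ.le, ← Real.rpow_natCast, ← Real.rpow_add hQ]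
  norm_num

theorem Pv_Fv (hψ : IsChar ψ) (c : K × K → ℝ) (p : K × K) : Pv ψ (Fv ψ c) p = c p := by
  unfold Pv Fv
  have h1 : ∑ t, (Fintype.card K : ℝ) ^ (-(9/4) : ℝ) * Rop ψ c t * Rop ψ (Pi.single p 1) t
      = (Fintype.card K : ℝ) ^ (-(9/4) : ℝ) * ((Fintype.card K : ℝ) ^ 3 * c p) := by
    simp only [mul_assoc]
    rw [← Finset.mul_sum, plancherel ψ hψ]
    congr 2
    simp [Pi.single_apply]
  rw [h1]
  have := pow_ab (K := K)
  calc _ = ((Fintype.card K : ℝ) ^ (-(3/4) : ℝ) * (Fintype.card K : ℝ) ^ (-(9/4) : ℝ)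
    * (Fintype.card K : ℝ) ^ 3) * c p := by ring
    _ = _ := by rw [this, one_mul]

theorem Pv_pair (f : K × K × K × K → ℝ) (c' : K × K → ℝ) :
    ∑ p, c' p * Pv ψ f p = ∑ t, f t * ((Fintype.card K : ℝ) ^ (-(3/4) : ℝ) * Rop ψ c' t) := by
  unfold Pv
  simp only [Finset.mul_sum]
  rw [Finset.sum_comm]
  refine Finset.sum_congr rfl fun t _ => ?_
  rw [Rop_linear c' t, Finset.mul_sum, Finset.mul_sum]
  exact Finset.sum_congr rfl fun p _ => by ring

theorem Pv_star (hψ : IsChar ψ) (f : K × K × K × K → ℝ) (hf : n43 f ≤ 1) (c' : K × K → ℝ) :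
    (∑ p, c' p * Pv ψ f p) ^ 4 ≤ ∑ p, c' p ^ 4 + ∑ p, (∑ q, Hm ψ p q * c' q) ^ 4
      + 3 / (Fintype.card K : ℝ) * (∑ p, c' p ^ 2) ^ 2 := by
  have hQ := cardQ_pos (K := K)
  rw [Pv_pair]
  have h1 := holder43 f (fun t => (Fintype.card K : ℝ) ^ (-(3/4) : ℝ) * Rop ψ c' t)
  have h2 : n43 f ^ 4 ≤ 1 := pow_le_one₀ (n43_nonneg f) hf
  have hs : 0 ≤ ∑ t, ((Fintype.card K : ℝ) ^ (-(3/4) : ℝ) * Rop ψ c' t) ^ 4 :=
    Finset.sum_nonneg fun x _ => by positivity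
  refine h1.trans ((mul_le_of_le_one_left hs h2).trans ?_)
  simp only [mul_pow]
  rw [← Finset.mul_sum]
  have h3 := fourth_moment ψ hψ c'
  have hb : 0 ≤ ((Fintype.card K : ℝ) ^ (-(3/4) : ℝ)) ^ 4 := by positivity
  refine (mul_le_mul_of_nonneg_left h3 hb).trans (le_of_eq ?_)
  have h4 := pow_b4 (K := K)
  have h5 : ((Fintype.card K : ℝ) ^ (-(3/4) : ℝ)) ^ 4 = 1 / (Fintype.card K : ℝ) ^ 3 := by
    field_simp
    linarith
  rw [h5]
  field_simp

omit [DecidableEq K] [CharP K 2] in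
theorem Pv_smul (a : ℝ) [DecidableEq K] (f : K × K × K × K → ℝ) (p : K × K) :
    Pv ψ (fun t => a * f t) p = a * Pv ψ f p := by
  unfold Pv
  simp only [mul_assoc]
  rw [← Finset.mul_sum]
  ring

theorem n43_Fv (hψ : IsChar ψ) (c : K × K → ℝ)
    (hmem : ∀ t, Rop ψ c t = 0 ∨ Rop ψ c t = 1 ∨ Rop ψ c t = -1) (hc : ∑ p, c p * c p = 1) :
    n43 (Fv ψ c) ≤ 1 := by
  have hQ := cardQ_pos (K := K)
  unfold n43 Fv
  have h1 : ∀ t, |(Fintype.card K : ℝ) ^ (-(9/4) : ℝ) * Rop ψ c t| ^ (4/3 : ℝ)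
      = (Fintype.card K : ℝ) ^ (-3 : ℝ) * (Rop ψ c t * Rop ψ c t) := by
    intro t
    rw [abs_mul, Real.mul_rpow (abs_nonneg _) (abs_nonneg _), abs_of_nonneg (by positivity),
      ← Real.rpow_mul hQ.le]
    have e1 : (-(9/4) : ℝ) * (4/3) = -3 := by norm_num
    rw [e1]
    congr 1
    rcases hmem t with h | h | h <;> rw [h]
    · simp
    · simp
    · simp
  simp only [h1]
  rw [← Finset.mul_sum, plancherel ψ hψ, hc, mul_one, ← Real.rpow_natCast (_ : ℝ) 3,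
    ← Real.rpow_add hQ]
  norm_num

/-- the bilinear form of a matrix. -/
noncomputable def BA (A : K × K → K × K → ℝ) (c d : K × K → ℝ) : ℝ := ∑ p, ∑ q, c p * A p q * d q

/-- the matrix on `X × X` of the form `(f,g) ↦ ⟨Pf, A Pg⟩`. -/
noncomputable def TA (ψ : K → ℝ) (A : K × K → K × K → ℝ) :
    K × K × K × K → K × K × K × K → ℝ := fun x y =>
  ((Fintype.card K : ℝ) ^ (-(3/4) : ℝ)) ^ 2 *
    ∑ p, ∑ q, Rop ψ (Pi.single p 1) x * A p q * Rop ψ (Pi.single q 1) y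

omit [CharP K 2] in
theorem TA_apply (A : K × K → K × K → ℝ) (f g : K × K × K × K → ℝ) :
    ∑ x, ∑ y, TA ψ A x y * (f x * g y) = BA A (Pv ψ f) (Pv ψ g) := by
  unfold TA BA Pv
  set b := (Fintype.card K : ℝ) ^ (-(3/4) : ℝ)
  calc ∑ x, ∑ y, (b ^ 2 * ∑ p, ∑ q, Rop ψ (Pi.single p 1) x * A p q * Rop ψ (Pi.single q 1) y) * (f x * g y)
      = ∑ x, ∑ y, ∑ p, ∑ q, b ^ 2 * (Rop ψ (Pi.single p 1) x * A p q * Rop ψ (Pi.single q 1) y) * (f x * g y) := by
        refine Finset.sum_congr rfl fun x _ => Finset.sum_congr rfl fun y _ => ?_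
        rw [Finset.mul_sum, Finset.sum_mul]
        refine Finset.sum_congr rfl fun p _ => ?_
        rw [Finset.mul_sum, Finset.sum_mul]
    _ = ∑ x, ∑ p, ∑ y, ∑ q, b ^ 2 * (Rop ψ (Pi.single p 1) x * A p q * Rop ψ (Pi.single q 1) y) * (f x * g y) := by
        refine Finset.sum_congr rfl fun x _ => ?_
        rw [Finset.sum_comm]
    _ = ∑ p, ∑ x, ∑ y, ∑ q, b ^ 2 * (Rop ψ (Pi.single p 1) x * A p q * Rop ψ (Pi.single q 1) y) * (f x * g y) := by
        rw [Finset.sum_comm]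
    _ = ∑ p, ∑ x, ∑ q, ∑ y, b ^ 2 * (Rop ψ (Pi.single p 1) x * A p q * Rop ψ (Pi.single q 1) y) * (f x * g y) := by
        refine Finset.sum_congr rfl fun p _ => Finset.sum_congr rfl fun x _ => ?_
        rw [Finset.sum_comm]
    _ = ∑ p, ∑ q, ∑ x, ∑ y, b ^ 2 * (Rop ψ (Pi.single p 1) x * A p q * Rop ψ (Pi.single q 1) y) * (f x * g y) := by
        refine Finset.sum_congr rfl fun p _ => ?_
        rw [Finset.sum_comm]
    _ = _ := by
        refine Finset.sum_congr rfl fun p _ => Finset.sum_congr rfl fun q _ => ?_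
        rw [show b * (∑ t, f t * Rop ψ (Pi.single p 1) t) * A p q * (b * ∑ t, g t * Rop ψ (Pi.single q 1) t)
          = b ^ 2 * A p q * ((∑ t, f t * Rop ψ (Pi.single p 1) t) * ∑ t, g t * Rop ψ (Pi.single q 1) t) by ring]
        rw [Finset.sum_mul_sum, Finset.mul_sum]
        refine Finset.sum_congr rfl fun x _ => ?_
        rw [Finset.mul_sum]
        refine Finset.sum_congr rfl fun y _ => ?_
        ring

end

end Pool.Agent.Cotype
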