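import Pool.Agent.Helper32.Cotype.Core2

/-! `ℓ_∞³` embeds almost isometrically in `ℓ_{4/3}(X) ⊗π ℓ_{4/3}(X)`. -/

set_option autoImplicit false

open scoped BigOperators

namespace Pool.Agent.Cotype

section

variable {K : Type} [Field K] [Fintype K] [DecidableEq K] [CharP K 2] {ψ : K → ℝ}

/-- identity matrix -/
noncomputable def A0 : K × K → K × K → ℝ := fun p q => if p = q then 1 else 0

/-- the matrix `D_s + σ H D_s H`. -/
noncomputable def As (ψ : K → ℝ) (σ : ℝ) : K × K → K × K → ℝ := fun p q =>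
  (if p = q then ψ (p.1 * p.2) else 0) + σ * ∑ r, Hm ψ p r * ψ (r.1 * r.2) * Hm ψ r q

omit [CharP K 2] [Field K] in
theorem BA_A0 (c d : K × K → ℝ) : BA (A0 : K × K → K × K → ℝ) c d = ∑ p, c p * d p := by
  unfold BA A0
  refine Finset.sum_congr rfl fun p _ => ?_
  simp

omit [CharP K 2] in
theorem BA_As (σ : ℝ) (c d : K × K → ℝ) : BA (As ψ σ) c d =
    ∑ p, ψ (p.1 * p.2) * c p * d p
      + σ * ∑ r, ψ (r.1 * r.2) * (∑ q, Hm ψ r q * c q) * (∑ q, Hm ψ r q * d q) := by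
  unfold BA As
  have h1 : ∑ p : K × K, ∑ q : K × K, c p * ((if p = q then ψ (p.1 * p.2) else 0)
      + σ * ∑ r, Hm ψ p r * ψ (r.1 * r.2) * Hm ψ r q) * d q
      = ∑ p : K × K, ∑ q : K × K, c p * (if p = q then ψ (p.1 * p.2) else 0) * d q
        + ∑ p : K × K, ∑ q : K × K, c p * (σ * ∑ r, Hm ψ p r * ψ (r.1 * r.2) * Hm ψ r q) * d q := by
    rw [← Finset.sum_add_distrib]
    refine Finset.sum_congr rfl fun p _ => ?_
    rw [← Finset.sum_add_distrib]
    exact Finset.sum_congr rfl fun q _ => by ring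
  rw [h1]
  congr 1
  · refine Finset.sum_congr rfl fun p _ => ?_
    simp only [mul_ite, mul_zero, ite_mul, zero_mul]
    rw [Finset.sum_ite_eq]
    simp only [Finset.mem_univ, if_true]
    ring
  · calc ∑ p : K × K, ∑ q : K × K, c p * (σ * ∑ r, Hm ψ p r * ψ (r.1 * r.2) * Hm ψ r q) * d q
        = ∑ p : K × K, ∑ q : K × K, ∑ r, σ * (ψ (r.1 * r.2) * ((Hm ψ r p * c p) * (Hm ψ r q * d q))) := by
          refine Finset.sum_congr rfl fun p _ => Finset.sum_congr rfl fun q _ => ?_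
          rw [Finset.mul_sum, Finset.mul_sum, Finset.sum_mul]
          refine Finset.sum_congr rfl fun r _ => ?_
          rw [Hm_symm p r]; ring
      _ = ∑ p : K × K, ∑ r, ∑ q : K × K, σ * (ψ (r.1 * r.2) * ((Hm ψ r p * c p) * (Hm ψ r q * d q))) := by
          refine Finset.sum_congr rfl fun p _ => ?_
          rw [Finset.sum_comm]
      _ = ∑ r, ∑ p : K × K, ∑ q : K × K, σ * (ψ (r.1 * r.2) * ((Hm ψ r p * c p) * (Hm ψ r q * d q))) := by
          rw [Finset.sum_comm]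
      _ = _ := by
          rw [Finset.mul_sum]
          refine Finset.sum_congr rfl fun r _ => ?_
          rw [mul_assoc (ψ (r.1 * r.2)), Finset.sum_mul_sum, Finset.mul_sum, Finset.mul_sum]
          refine Finset.sum_congr rfl fun p _ => ?_
          rw [Finset.mul_sum, Finset.mul_sum]

omit [CharP K 2] in
theorem single_sq (p : K × K) : ∑ q, (Pi.single p (1:ℝ) : K × K → ℝ) q * (Pi.single p (1:ℝ) : K × K → ℝ) q = 1 := by
  simp [Pi.single_apply]

theorem Hm_row_sq (hψ : IsChar ψ) (p : K × K) : ∑ q, Hm ψ p q * Hm ψ p q = 1 := by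
  have := Hm_orth hψ p p
  rw [if_pos rfl] at this
  rw [← this]
  exact Finset.sum_congr rfl fun q _ => by rw [Hm_symm q p]

theorem Hm_row_apply (hψ : IsChar ψ) (p r : K × K) :
    ∑ q, Hm ψ r q * Hm ψ p q = if r = p then 1 else 0 := by
  rw [← Hm_orth hψ r p]
  exact Finset.sum_congr rfl fun q _ => by rw [Hm_symm q p]

theorem BA_As_single (hψ : IsChar ψ) (σ : ℝ) (p : K × K) :
    BA (As ψ σ) (Pi.single p 1) (Pi.single p 1) = ψ (p.1 * p.2) + σ * (1 / (Fintype.card K : ℝ)) := by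
  rw [BA_As]
  congr 1
  · simp [Pi.single_apply]
  · congr 1
    rw [← Hm_sandwich_diag hψ p]
    refine Finset.sum_congr rfl fun r _ => ?_
    have : ∑ q, Hm ψ r q * (Pi.single p (1:ℝ) : K × K → ℝ) q = Hm ψ r p := by
      simp [Pi.single_apply]
    rw [this, Hm_symm p r]; ring

theorem BA_As_Hm (hψ : IsChar ψ) (σ : ℝ) (p : K × K) :
    BA (As ψ σ) (Hm ψ p) (Hm ψ p) = 1 / (Fintype.card K : ℝ) + σ * ψ (p.1 * p.2) := by
  rw [BA_As]
  congr 1
  · rw [← Hm_sandwich_diag hψ p]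
    refine Finset.sum_congr rfl fun r _ => ?_
    rw [Hm_symm r p]; ring
  · congr 1
    simp only [Hm_row_apply hψ]
    simp

/-- For general `f,g` the form is bounded, once it is bounded on the unit balls. -/
theorem BB_of_unit (hψ : IsChar ψ) (A : K × K → K × K → ℝ) (M : ℝ) (hM : 0 < M)
    (h : ∀ c d : K × K → ℝ,
        (∀ c' : K × K → ℝ, (∑ p, c' p * c p) ^ 4 ≤
          ∑ p, c' p ^ 4 + ∑ p, (∑ q, Hm ψ p q * c' q) ^ 4
            + 3 / (Fintype.card K : ℝ) * (∑ p, c' p ^ 2) ^ 2) →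
        (∀ d' : K × K → ℝ, (∑ p, d' p * d p) ^ 4 ≤
          ∑ p, d' p ^ 4 + ∑ p, (∑ q, Hm ψ p q * d' q) ^ 4
            + 3 / (Fintype.card K : ℝ) * (∑ p, d' p ^ 2) ^ 2) → |BA A c d| ≤ M) :
    BB (fun x y => (1 / M) * TA ψ A x y) := by
  intro f g
  have h0 : ∑ x, ∑ y, (1 / M) * TA ψ A x y * (f x * g y) = (1 / M) * BA A (Pv ψ f) (Pv ψ g) := by
    rw [← TA_apply, Finset.mul_sum]
    refine Finset.sum_congr rfl fun x _ => ?_
    rw [Finset.mul_sum]
    exact Finset.sum_congr rfl fun y _ => by ring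
  rw [h0]
  by_cases hf : n43 f = 0
  · have hf0 := n43_eq_zero f hf
    have : Pv ψ f = 0 := by
      funext p; simp [Pv, hf0]
    rw [this]
    have h1 : BA A 0 (Pv ψ g) = 0 := by simp [BA]
    rw [h1, hf]; simp
  by_cases hg : n43 g = 0
  · have hg0 := n43_eq_zero g hg
    have : Pv ψ g = 0 := by
      funext p; simp [Pv, hg0]
    rw [this]
    have h1 : BA A (Pv ψ f) 0 = 0 := by simp [BA]
    rw [h1, hg]; simp
  have hfp : 0 < n43 f := lt_of_le_of_ne (n43_nonneg f) (Ne.symm hf)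
  have hgp : 0 < n43 g := lt_of_le_of_ne (n43_nonneg g) (Ne.symm hg)
  set f' : K × K × K × K → ℝ := fun t => (1 / n43 f) * f t with hf'
  set g' : K × K × K × K → ℝ := fun t => (1 / n43 g) * g t with hg'
  have hf1 : n43 f' ≤ 1 := by
    rw [hf', n43_smul, abs_of_pos (by positivity)]
    rw [one_div, inv_mul_cancel₀ hf]
  have hg1 : n43 g' ≤ 1 := by
    rw [hg', n43_smul, abs_of_pos (by positivity)]
    rw [one_div, inv_mul_cancel₀ hg]
  have hb := h (Pv ψ f') (Pv ψ g') (Pv_star hψ f' hf1) (Pv_star hψ g' hg1)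
  have e1 : BA A (Pv ψ f') (Pv ψ g') = (1 / n43 f) * (1 / n43 g) * BA A (Pv ψ f) (Pv ψ g) := by
    unfold BA
    rw [Finset.mul_sum]
    refine Finset.sum_congr rfl fun p _ => ?_
    rw [Finset.mul_sum]
    refine Finset.sum_congr rfl fun q _ => ?_
    rw [hf', hg', Pv_smul, Pv_smul]; ring
  rw [e1, abs_mul, abs_of_pos (by positivity : (0:ℝ) < (1 / n43 f) * (1 / n43 g))] at hb
  rw [abs_mul, abs_of_pos (by positivity : (0:ℝ) < 1 / M)]
  have h2 : |BA A (Pv ψ f) (Pv ψ g)| ≤ M * (n43 f * n43 g) := by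
    have h3 : (1 / n43 f) * (1 / n43 g) * |BA A (Pv ψ f) (Pv ψ g)|
        = |BA A (Pv ψ f) (Pv ψ g)| / (n43 f * n43 g) := by field_simp
    rw [h3, div_le_iff₀ (by positivity)] at hb
    exact hb
  calc 1 / M * |BA A (Pv ψ f) (Pv ψ g)| ≤ 1 / M * (M * (n43 f * n43 g)) :=
        mul_le_mul_of_nonneg_left h2 (by positivity)
    _ = n43 f * n43 g := by field_simp

/-- diagonal tensors in an arbitrary orthonormal family -/
noncomputable def Wt (ψ : K → ℝ) (w : K × K → ℝ) (c : K × K → K × K → ℝ) :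
    K × K × K × K → K × K × K × K → ℝ := fun x y => ∑ p, w p * (Fv ψ (c p) x * Fv ψ (c p) y)

theorem TA_Wt (hψ : IsChar ψ) (A : K × K → K × K → ℝ) (w : K × K → ℝ) (c : K × K → K × K → ℝ) :
    ∑ x, ∑ y, TA ψ A x y * Wt ψ w c x y = ∑ p, w p * BA A (c p) (c p) := by
  unfold Wt
  calc ∑ x, ∑ y, TA ψ A x y * ∑ p, w p * (Fv ψ (c p) x * Fv ψ (c p) y)
      = ∑ x, ∑ y, ∑ p, w p * (TA ψ A x y * (Fv ψ (c p) x * Fv ψ (c p) y)) := by
        refine Finset.sum_congr rfl fun x _ => Finset.sum_congr rfl fun y _ => ?_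
        rw [Finset.mul_sum]
        exact Finset.sum_congr rfl fun p _ => by ring
    _ = ∑ x, ∑ p, ∑ y, w p * (TA ψ A x y * (Fv ψ (c p) x * Fv ψ (c p) y)) := by
        refine Finset.sum_congr rfl fun x _ => ?_
        rw [Finset.sum_comm]
    _ = ∑ p, ∑ x, ∑ y, w p * (TA ψ A x y * (Fv ψ (c p) x * Fv ψ (c p) y)) := by
        rw [Finset.sum_comm]
    _ = _ := by
        refine Finset.sum_congr rfl fun p _ => ?_
        have : BA A (c p) (c p) = BA A (Pv ψ (Fv ψ (c p))) (Pv ψ (Fv ψ (c p))) := by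
          have e : Pv ψ (Fv ψ (c p)) = c p := funext fun q => Pv_Fv hψ (c p) q
          rw [e]
        rw [this, ← TA_apply, Finset.mul_sum]
        refine Finset.sum_congr rfl fun x _ => ?_
        rw [Finset.mul_sum]

theorem Fv_Hm_eq (p : K × K) (t : K × K × K × K) :
    Fv ψ (Hm ψ p) t = ∑ q, Hm ψ p q * Fv ψ (Pi.single q 1) t := by
  unfold Fv
  rw [Rop_linear (Hm ψ p) t, Finset.mul_sum]
  exact Finset.sum_congr rfl fun q _ => by ring

theorem Wt_one (hψ : IsChar ψ) (a : ℝ) (x y : K × K × K × K) :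
    Wt ψ (fun _ => a) (Hm ψ) x y = Wt ψ (fun _ => a) (fun p => Pi.single p 1) x y := by
  unfold Wt
  rw [← Finset.mul_sum, ← Finset.mul_sum]
  congr 1
  simp only [Fv_Hm_eq]
  calc ∑ p : K × K, (∑ q, Hm ψ p q * Fv ψ (Pi.single q 1) x) * ∑ q, Hm ψ p q * Fv ψ (Pi.single q 1) y
      = ∑ p : K × K, ∑ q, ∑ q', (Hm ψ q p * Hm ψ p q') * (Fv ψ (Pi.single q 1) x * Fv ψ (Pi.single q' 1) y) := by
        refine Finset.sum_congr rfl fun p _ => ?_
        rw [Finset.sum_mul_sum]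
        refine Finset.sum_congr rfl fun q _ => Finset.sum_congr rfl fun q' _ => ?_
        rw [Hm_symm q p]; ring
    _ = ∑ q, ∑ p : K × K, ∑ q', (Hm ψ q p * Hm ψ p q') * (Fv ψ (Pi.single q 1) x * Fv ψ (Pi.single q' 1) y) := by
        rw [Finset.sum_comm]
    _ = ∑ q, ∑ q', ∑ p : K × K, (Hm ψ q p * Hm ψ p q') * (Fv ψ (Pi.single q 1) x * Fv ψ (Pi.single q' 1) y) := by
        refine Finset.sum_congr rfl fun q _ => ?_
        rw [Finset.sum_comm]
    _ = ∑ q, ∑ q', (if q = q' then 1 else 0) * (Fv ψ (Pi.single q 1) x * Fv ψ (Pi.single q' 1) y) := by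
        refine Finset.sum_congr rfl fun q _ => Finset.sum_congr rfl fun q' _ => ?_
        rw [← Finset.sum_mul, Hm_orth hψ]
    _ = _ := by
        refine Finset.sum_congr rfl fun q _ => ?_
        simp

theorem PB_Wt (w : K × K → ℝ) (hw : ∑ p, |w p| ≤ 1) (c : K × K → K × K → ℝ)
    (hc : ∀ p, n43 (Fv ψ (c p)) ≤ 1) : PB (Wt ψ w c) :=
  PB_of_fintype (Wt ψ w c) w (fun p => Fv ψ (c p)) (fun p => Fv ψ (c p)) hw hc hc
    (fun _ _ => rfl)

end

theorem core3 (ε : ℝ) (hε : 0 < ε) :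
    ∃ (X : Type) (_ : Fintype X) (_ : Nonempty X) (u T : Fin 3 → X → X → ℝ),
      (∀ i, BB (T i)) ∧ (∀ i, 1 - ε ≤ ∑ x, ∑ y, T i x y * u i x y) ∧
      (∀ δ : Fin 3 → ℝ, (∀ i, δ i = 1 ∨ δ i = -1) → PB (fun x y => ∑ i, δ i * u i x y)) := by
  obtain ⟨Q0, hQ0⟩ := key_bound (ε / 2) (by positivity)
  obtain ⟨K, iF, iFin, iC, ψ, hψ, hN⟩ := exists_field (max Q0 (2 / ε))
  classical
  have hQ := cardQ_pos (K := K)
  set Q : ℝ := (Fintype.card K : ℝ) with hQdef
  have hQ0' : Q0 ≤ Q := (le_max_left _ _).trans hN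
  have hQε : 2 / ε ≤ Q := (le_max_right _ _).trans hN
  have hQ1 : (1:ℝ) ≤ Q := by
    have : 1 ≤ Fintype.card K := Fintype.card_pos
    rw [hQdef]
    exact_mod_cast this
  have hcardG : (Fintype.card (K × K) : ℝ) = Q ^ 2 := by
    rw [Fintype.card_prod]; push_cast; ring
  have hsum_s : ∑ r : K × K, ψ (r.1 * r.2) = Q := sum_s hψ
  -- key bound
  have hkey := hQ0 Q hQ0' (K × K) (Hm ψ) (fun p => ψ (p.1 * p.2)) Hm_symm (Hm_orth hψ) (Hm_abs hψ)
    (fun p => hψ.pm _) (Hm_sandwich_abs hψ) (four_le ψ hψ)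
  have hM : (0:ℝ) < 1 + ε / 2 := by positivity
  -- norms of the atoms
  have hn1 : ∀ p : K × K, n43 (Fv ψ (Pi.single p 1)) ≤ 1 := fun p =>
    n43_Fv hψ _ (Rop_single_mem hψ p) (single_sq p)
  have hn2 : ∀ p : K × K, n43 (Fv ψ (Hm ψ p)) ≤ 1 := fun p =>
    n43_Fv hψ _ (Rop_Hm_mem hψ p) (Hm_row_sq hψ p)
  set lam : ℝ := 1 / (1 + 1 / Q) with hlam
  have hlam0 : 0 < lam := by positivity
  let wu : K × K → ℝ := fun _ => lam * (1 / Q ^ 2)
  let ws : K × K → ℝ := fun p => lam * (1 / Q ^ 2) * ψ (p.1 * p.2)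
  let sg : K × K → K × K → ℝ := fun p => Pi.single p 1
  let U1 := Wt ψ wu sg
  let W0 := Wt ψ ws sg
  let W1 := Wt ψ ws (Hm ψ)
  have pair1 : ∑ x, ∑ y, TA ψ A0 x y * U1 x y = lam := by
    rw [TA_Wt hψ]
    have : ∀ p : K × K, wu p * BA A0 (sg p) (sg p) = lam * (1 / Q ^ 2) := by
      intro p
      rw [BA_A0, single_sq p, mul_one]
    simp only [this]
    rw [Finset.sum_const, Finset.card_univ, nsmul_eq_mul, hcardG]
    field_simp
  have pairW0 : ∀ σ : ℝ, ∑ x, ∑ y, TA ψ (As ψ σ) x y * W0 x y = lam * (1 + σ / Q ^ 2) := by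
    intro σ
    rw [TA_Wt hψ]
    have : ∀ p : K × K, ws p * BA (As ψ σ) (sg p) (sg p)
        = lam * (1 / Q ^ 2) + lam * (1 / Q ^ 2) * (σ * (1 / Q)) * ψ (p.1 * p.2) := by
      intro p
      rw [BA_As_single hψ]
      have := hψ.sq (p.1 * p.2)
      simp only [ws]
      linear_combination (lam * (1 / Q ^ 2)) * this
    simp only [this]
    rw [Finset.sum_add_distrib, Finset.sum_const, Finset.card_univ, nsmul_eq_mul, hcardG,
      ← Finset.mul_sum, hsum_s]
    field_simp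
  have pairW1 : ∀ σ : ℝ, ∑ x, ∑ y, TA ψ (As ψ σ) x y * W1 x y = lam * (σ + 1 / Q ^ 2) := by
    intro σ
    rw [TA_Wt hψ]
    have : ∀ p : K × K, ws p * BA (As ψ σ) (Hm ψ p) (Hm ψ p)
        = lam * (1 / Q ^ 2) * σ + lam * (1 / Q ^ 2) * (1 / Q) * ψ (p.1 * p.2) := by
      intro p
      rw [BA_As_Hm hψ]
      have := hψ.sq (p.1 * p.2)
      simp only [ws]
      linear_combination (lam * (1 / Q ^ 2) * σ) * this
    simp only [this]
    rw [Finset.sum_add_distrib, Finset.sum_const, Finset.card_univ, nsmul_eq_mul, hcardG,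
      ← Finset.mul_sum, hsum_s]
    field_simp
  -- the numerical estimate
  have hnum : 1 - ε ≤ (1 / (1 + ε / 2)) * (lam * (1 - 1 / Q ^ 2)) := by
    have h1 : lam * (1 - 1 / Q ^ 2) = 1 - 1 / Q := by
      rw [hlam]; field_simp; ring
    rw [h1]
    have h2 : 1 / Q ≤ ε / 2 := by
      rw [div_le_iff₀ hQ]
      rw [div_le_iff₀ hε] at hQε
      linarith
    rw [one_div, inv_mul_eq_div, le_div_iff₀ hM]
    nlinarith [sq_nonneg ε]
  have hlam1 : lam * (1 - 1 / Q ^ 2) ≤ lam := by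
    have : 0 < lam * (1 / Q ^ 2) := by positivity
    nlinarith
  refine ⟨K × K × K × K, inferInstance, inferInstance,
    ![U1, fun x y => (W0 x y + W1 x y) / 2, fun x y => (W0 x y - W1 x y) / 2],
    ![fun x y => (1 / (1 + ε / 2)) * TA ψ A0 x y, fun x y => (1 / (1 + ε / 2)) * TA ψ (As ψ 1) x y,
      fun x y => (1 / (1 + ε / 2)) * TA ψ (As ψ (-1)) x y], ?_, ?_, ?_⟩
  · intro i
    fin_cases i
    · refine BB_of_unit hψ A0 _ hM fun c d hc hd => ?_
      rw [BA_A0]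
      exact (hkey c d hc hd).1
    · refine BB_of_unit hψ (As ψ 1) _ hM fun c d hc hd => ?_
      rw [BA_As]
      exact (hkey c d hc hd).2 1 (Or.inl rfl)
    · refine BB_of_unit hψ (As ψ (-1)) _ hM fun c d hc hd => ?_
      rw [BA_As]
      exact (hkey c d hc hd).2 (-1) (Or.inr rfl)
  · have aux : ∀ (M : ℝ) (T u : K × K × K × K → K × K × K × K → ℝ),
        ∑ x, ∑ y, M * T x y * u x y = M * ∑ x, ∑ y, T x y * u x y := by
      intro M T u
      rw [Finset.mul_sum]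
      refine Finset.sum_congr rfl fun x _ => ?_
      rw [Finset.mul_sum]
      exact Finset.sum_congr rfl fun y _ => by ring
    have aux2 : ∀ (T u v : K × K × K × K → K × K × K × K → ℝ) (τ : ℝ),
        ∑ x, ∑ y, T x y * ((u x y + τ * v x y) / 2)
          = (∑ x, ∑ y, T x y * u x y + τ * ∑ x, ∑ y, T x y * v x y) / 2 := by
      intro T u v τ
      rw [Finset.mul_sum, ← Finset.sum_add_distrib, Finset.sum_div]
      refine Finset.sum_congr rfl fun x _ => ?_
      rw [Finset.mul_sum, ← Finset.sum_add_distrib, Finset.sum_div]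
      exact Finset.sum_congr rfl fun y _ => by ring
    intro i
    fin_cases i
    · show 1 - ε ≤ ∑ x, ∑ y, (1 / (1 + ε / 2)) * TA ψ A0 x y * U1 x y
      rw [aux, pair1]
      exact hnum.trans (mul_le_mul_of_nonneg_left hlam1 (by positivity))
    · show 1 - ε ≤ ∑ x, ∑ y, (1 / (1 + ε / 2)) * TA ψ (As ψ 1) x y * ((W0 x y + W1 x y) / 2)
      have := aux2 (TA ψ (As ψ 1)) W0 W1 1
      simp only [one_mul] at this
      rw [aux, this, pairW0, pairW1]
      refine hnum.trans (mul_le_mul_of_nonneg_left ?_ (by positivity))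
      have : 0 < lam * (1 / Q ^ 2) := by positivity
      nlinarith
    · show 1 - ε ≤ ∑ x, ∑ y, (1 / (1 + ε / 2)) * TA ψ (As ψ (-1)) x y * ((W0 x y - W1 x y) / 2)
      have := aux2 (TA ψ (As ψ (-1))) W0 W1 (-1)
      simp only [neg_one_mul, ← sub_eq_add_neg] at this
      rw [aux, this, pairW0, pairW1]
      refine hnum.trans (mul_le_mul_of_nonneg_left ?_ (by positivity))
      apply le_of_eq; ring
  · intro δ hδ
    -- weights
    have habs : ∀ (a b s : ℝ), (a = 1 ∨ a = -1) → (b = 1 ∨ b = -1) → (s = 1 ∨ s = -1) →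
        |a + b * s| = 1 + a * b * s := by
      intro a b s ha hb hs
      rcases ha with rfl | rfl <;> rcases hb with rfl | rfl <;> rcases hs with rfl | rfl <;> norm_num
    have hwt : ∀ a b : ℝ, (a = 1 ∨ a = -1) → (b = 1 ∨ b = -1) →
        ∑ p : K × K, |lam * (1 / Q ^ 2) * (a + b * ψ (p.1 * p.2))| ≤ 1 := by
      intro a b ha hb
      have h1 : ∀ p : K × K, |lam * (1 / Q ^ 2) * (a + b * ψ (p.1 * p.2))|
          = lam * (1 / Q ^ 2) + lam * (1 / Q ^ 2) * (a * b) * ψ (p.1 * p.2) := by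
        intro p
        rw [abs_mul, abs_of_pos (by positivity : 0 < lam * (1 / Q ^ 2)), habs a b _ ha hb (hψ.pm _)]
        ring
      simp only [h1]
      rw [Finset.sum_add_distrib, Finset.sum_const, Finset.card_univ, nsmul_eq_mul, hcardG,
        ← Finset.mul_sum, hsum_s]
      have h2 : Q ^ 2 * (lam * (1 / Q ^ 2)) + lam * (1 / Q ^ 2) * (a * b) * Q
          = lam * (1 + (a * b) / Q) := by field_simp
      rw [h2, hlam]
      have h3 : a * b ≤ 1 := by
        rcases ha with rfl | rfl <;> rcases hb with rfl | rfl <;> norm_num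
      rw [one_div, inv_mul_eq_div, div_le_one (by positivity)]
      have : a * b / Q ≤ 1 / Q := div_le_div_of_nonneg_right h3 hQ.le
      linarith
    have hcomb : ∀ (a b : ℝ) (c : K × K → K × K → ℝ) (x y : K × K × K × K),
        a * Wt ψ wu c x y + b * Wt ψ ws c x y
          = Wt ψ (fun p => lam * (1 / Q ^ 2) * (a + b * ψ (p.1 * p.2))) c x y := by
      intro a b c x y
      unfold Wt
      rw [Finset.mul_sum, Finset.mul_sum, ← Finset.sum_add_distrib]
      refine Finset.sum_congr rfl fun p _ => ?_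
      simp only [wu, ws]
      ring
    have hd2 : δ 2 = δ 1 ∨ δ 2 = - δ 1 := by
      rcases hδ 1 with h1 | h1 <;> rcases hδ 2 with h2 | h2 <;> rw [h1, h2] <;> simp
    rcases hd2 with h2 | h2
    · have he : (fun x y => ∑ i : Fin 3, δ i * (![U1, fun x y => (W0 x y + W1 x y) / 2,
          fun x y => (W0 x y - W1 x y) / 2] : Fin 3 → _ → _ → ℝ) i x y)
          = Wt ψ (fun p => lam * (1 / Q ^ 2) * (δ 0 + δ 1 * ψ (p.1 * p.2))) sg := by
        funext x y
        rw [← hcomb, Fin.sum_univ_three]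
        show δ 0 * U1 x y + δ 1 * ((W0 x y + W1 x y) / 2) + δ 2 * ((W0 x y - W1 x y) / 2) = _
        rw [h2]
        show _ = δ 0 * U1 x y + δ 1 * W0 x y
        ring
      rw [he]
      exact PB_Wt _ (hwt _ _ (hδ 0) (hδ 1)) _ hn1
    · have he : (fun x y => ∑ i : Fin 3, δ i * (![U1, fun x y => (W0 x y + W1 x y) / 2,
          fun x y => (W0 x y - W1 x y) / 2] : Fin 3 → _ → _ → ℝ) i x y)
          = Wt ψ (fun p => lam * (1 / Q ^ 2) * (δ 0 + δ 1 * ψ (p.1 * p.2))) (Hm ψ) := by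
        funext x y
        rw [← hcomb, Fin.sum_univ_three]
        have hU : Wt ψ wu (Hm ψ) x y = U1 x y := Wt_one hψ _ x y
        show δ 0 * U1 x y + δ 1 * ((W0 x y + W1 x y) / 2) + δ 2 * ((W0 x y - W1 x y) / 2) = _
        rw [h2, hU]
        show _ = δ 0 * U1 x y + δ 1 * W1 x y
        ring
      rw [he]
      exact PB_Wt _ (hwt _ _ (hδ 0) (hδ 1)) _ hn2

end Pool.Agent.Cotype
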