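import Pool.Agent.Helper32.Cotype.Core3

/-! Final assembly: `L_{4/3}[0,1] ⊗π L_{4/3}[0,1]` does not have finite cotype. -/

set_option autoImplicit false

open scoped BigOperators TensorProduct
open MeasureTheory

namespace Pool.Agent.Cotype

section

variable {Y : Type} [Fintype Y] [DecidableEq Y]

/-- the tensor of `L ⊗ L` (with `L = L_{4/3}[0,1]`) attached to a matrix. -/
noncomputable def tens (ι : (Y → ℝ) →ₗ[ℝ] Lp ℝ p43 mu01) (U : Y → Y → ℝ) :
    PiTensorProduct ℝ (fun _ : Fin 2 => Lp ℝ p43 mu01) :=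
  ∑ r : Fin 2 → Y, U (r 0) (r 1) • PiTensorProduct.tprod ℝ (fun i => ι (Pi.single (r i) 1))

theorem tprod_expand (ι : (Y → ℝ) →ₗ[ℝ] Lp ℝ p43 mu01) (f g : Y → ℝ) :
    PiTensorProduct.tprod ℝ (fun i : Fin 2 => ι (![f, g] i)) =
      ∑ r : Fin 2 → Y, (f (r 0) * g (r 1)) • PiTensorProduct.tprod ℝ (fun i => ι (Pi.single (r i) 1)) := by
  have h0 : ∀ h : Y → ℝ, ι h = ∑ x : Y, h x • ι (Pi.single x 1) := by
    intro h
    have : h = ∑ x : Y, h x • (Pi.single x (1:ℝ) : Y → ℝ) := by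
      funext y
      simp [Finset.sum_apply, Pi.single_apply]
    conv_lhs => rw [this]
    rw [map_sum]
    exact Finset.sum_congr rfl fun x _ => map_smul _ _ _
  have h1 : (fun i : Fin 2 => ι (![f, g] i))
      = fun i : Fin 2 => ∑ x : Y, (![f, g] i x) • ι (Pi.single x 1) := by
    funext i
    exact h0 _
  rw [h1, MultilinearMap.map_sum]
  refine Finset.sum_congr rfl fun r _ => ?_
  rw [MultilinearMap.map_smul_univ]
  congr 1
  rw [Fin.prod_univ_two]
  simp

theorem tens_linear {n : ℕ} (ι : (Y → ℝ) →ₗ[ℝ] Lp ℝ p43 mu01) (w : Fin n → ℝ) (U : Fin n → Y → Y → ℝ) :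
    tens ι (fun x y => ∑ i, w i * U i x y) = ∑ i, w i • tens ι (U i) := by
  unfold tens
  simp only [Finset.smul_sum, smul_smul]
  rw [Finset.sum_comm]
  refine Finset.sum_congr rfl fun r _ => ?_
  rw [Finset.sum_smul]

theorem tens_le (ι : (Y → ℝ) →ₗ[ℝ] Lp ℝ p43 mu01) (hι : ∀ f, ‖ι f‖ ≤ n43 f) (U : Y → Y → ℝ)
    (hU : PB U) : ‖tens ι U‖ ≤ 1 := by
  obtain ⟨m, w, f, g, hw, hf, hg, hu⟩ := hU
  have h1 : tens ι U = ∑ j, w j • PiTensorProduct.tprod ℝ (fun i : Fin 2 => ι (![f j, g j] i)) := by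
    have : U = fun x y => ∑ j, w j * (f j x * g j y) := by
      funext x y; exact hu x y
    rw [this, tens_linear ι w (fun j x y => f j x * g j y)]
    refine Finset.sum_congr rfl fun j _ => ?_
    rw [tprod_expand]
    rfl
  rw [h1]
  refine (norm_sum_le _ _).trans (le_trans (Finset.sum_le_sum fun j _ => ?_) hw)
  rw [norm_smul, Real.norm_eq_abs]
  refine mul_le_of_le_one_right (abs_nonneg _) ?_
  refine (PiTensorProduct.projectiveSeminorm_tprod_le _).trans ?_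
  rw [Fin.prod_univ_two]
  have a1 : ‖ι (![f j, g j] 0)‖ ≤ 1 := (hι _).trans (by simpa using hf j)
  have a2 : ‖ι (![f j, g j] 1)‖ ≤ 1 := (hι _).trans (by simpa using hg j)
  exact mul_le_one₀ a1 (norm_nonneg _) a2

/-- the multilinear form attached to a matrix -/
noncomputable def mform (E : Lp ℝ p43 mu01 →ₗ[ℝ] (Y → ℝ)) (T : Y → Y → ℝ) :
    MultilinearMap ℝ (fun _ : Fin 2 => Lp ℝ p43 mu01) ℝ :=
  ∑ x : Y, ∑ y : Y, T x y • (MultilinearMap.mkPiAlgebra ℝ (Fin 2) ℝ).compLinearMap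
    (fun i : Fin 2 => (LinearMap.proj (![x, y] i) : (Y → ℝ) →ₗ[ℝ] ℝ) ∘ₗ E)

theorem mform_apply (E : Lp ℝ p43 mu01 →ₗ[ℝ] (Y → ℝ)) (T : Y → Y → ℝ)
    (m : Fin 2 → Lp ℝ p43 mu01) :
    mform E T m = ∑ x, ∑ y, T x y * (E (m 0) x * E (m 1) y) := by
  unfold mform
  simp only [MultilinearMap.sum_apply, MultilinearMap.smul_apply, MultilinearMap.compLinearMap_apply,
    MultilinearMap.mkPiAlgebra_apply, Fin.prod_univ_two, smul_eq_mul]
  rfl

theorem pair_le (ι : (Y → ℝ) →ₗ[ℝ] Lp ℝ p43 mu01) (E : Lp ℝ p43 mu01 →ₗ[ℝ] (Y → ℝ))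
    (hE : ∀ F, n43 (E F) ≤ ‖F‖) (hEι : ∀ f, E (ι f) = f) (T U : Y → Y → ℝ) (hT : BB T) :
    ∑ x, ∑ y, T x y * U x y ≤ ‖tens ι U‖ := by
  have hb : ∀ m : Fin 2 → Lp ℝ p43 mu01, ‖mform E T m‖ ≤ 1 * ∏ i, ‖m i‖ := by
    intro m
    rw [mform_apply, Real.norm_eq_abs, one_mul, Fin.prod_univ_two]
    refine (hT _ _).trans ?_
    exact mul_le_mul (hE _) (hE _) (by unfold n43; positivity) (norm_nonneg _)
  let φ := (mform E T).mkContinuous 1 hb
  have hφ : ‖φ‖ ≤ 1 := MultilinearMap.mkContinuous_norm_le _ zero_le_one hb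
  have h1 := PiTensorProduct.norm_eval_le_projectiveSeminorm φ (tens ι U)
  have h2 : PiTensorProduct.lift φ.toMultilinearMap (tens ι U) = ∑ x, ∑ y, T x y * U x y := by
    have hφe : φ.toMultilinearMap = mform E T := rfl
    rw [hφe]
    unfold tens
    rw [map_sum]
    have h3 : ∀ r : Fin 2 → Y, (PiTensorProduct.lift (mform E T))
        (U (r 0) (r 1) • PiTensorProduct.tprod ℝ (fun i => ι (Pi.single (r i) 1)))
        = T (r 0) (r 1) * U (r 0) (r 1) := by
      intro r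
      rw [map_smul, PiTensorProduct.lift.tprod, mform_apply]
      simp only [hEι, smul_eq_mul]
      have : ∑ x, ∑ y, T x y * ((Pi.single (r 0) (1:ℝ) : Y → ℝ) x * (Pi.single (r 1) (1:ℝ) : Y → ℝ) y)
          = T (r 0) (r 1) := by
        simp [Pi.single_apply, Finset.sum_ite_eq]
      rw [this]; ring
    simp only [h3]
    rw [← Fintype.sum_prod_type']
    exact Fintype.sum_equiv (piFinTwoEquiv _) _ _ (fun r => rfl)
  rw [h2] at h1
  refine (le_abs_self _).trans ?_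
  rw [← Real.norm_eq_abs]
  exact h1.trans (mul_le_of_le_one_left (norm_nonneg _) hφ)

end

theorem prod_pair {P X : Type} [Fintype P] [DecidableEq P] [Fintype X] (T U : P → X → X → ℝ) :
    ∑ x : P → X, ∑ y : P → X, (∏ p, T p (x p) (y p)) * ∏ p, U p (x p) (y p)
      = ∏ p, ∑ x, ∑ y, T p x y * U p x y := by
  have h1 : ∏ p, ∑ x, ∑ y, T p x y * U p x y = ∏ p, ∑ z : X × X, T p z.1 z.2 * U p z.1 z.2 := by
    refine Finset.prod_congr rfl fun p _ => ?_
    rw [Fintype.sum_prod_type]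
  rw [h1, Finset.prod_univ_sum, Fintype.piFinset_univ, ← Fintype.sum_prod_type']
  refine (Fintype.sum_equiv (Equiv.arrowProdEquivProdArrow P (fun _ => X) (fun _ => X)) _ _ ?_).symm
  intro z
  rw [← Finset.prod_mul_distrib]
  rfl

/-- Uniform copies of `ℓ_∞^n` in `L_{4/3} ⊗π L_{4/3}`. -/
theorem linf_copies (n : ℕ) : ∃ x : Fin n → PiTensorProduct ℝ (fun _ : Fin 2 => Lp ℝ p43 mu01),
    (∀ k, 1 / 2 ≤ ‖x k‖) ∧
    ∀ δ : Fin n → ℝ, (∀ i, δ i = 1 ∨ δ i = -1) → ‖∑ k, δ k • x k‖ ≤ 1 := by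
  classical
  obtain ⟨ε, hε, hε1, hεn⟩ : ∃ ε : ℝ, 0 < ε ∧ ε < 1 ∧ 1 / 2 ≤ (1 - ε) ^ (n * n) := by
    refine ⟨1 / (2 * ((n * n : ℕ) + 1)), by positivity, ?_, ?_⟩
    · rw [div_lt_one (by positivity)]
      have : (0:ℝ) ≤ ((n * n : ℕ) : ℝ) := by positivity
      linarith
    · have h := one_add_mul_le_pow (a := -(1 / (2 * (((n * n : ℕ) : ℝ) + 1)))) (by
        have : 1 / (2 * (((n * n : ℕ) : ℝ) + 1)) ≤ 1 := by
          rw [div_le_one (by positivity)]
          have : (0:ℝ) ≤ ((n * n : ℕ) : ℝ) := by positivity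
          linarith
        linarith) (n * n)
      rw [← sub_eq_add_neg] at h
      refine le_trans ?_ h
      have h2 : ((n * n : ℕ) : ℝ) * (1 / (2 * (((n * n : ℕ) : ℝ) + 1))) ≤ 1 / 2 := by
        rw [mul_one_div, div_le_iff₀ (by positivity)]
        linarith
      linarith
  obtain ⟨X, iX, iN, u, T, hT, hTu, hPB⟩ := core3 ε hε
  let P := Fin n × Fin n
  obtain ⟨ι, E, hι, hE, hEι⟩ := lp_embed (P → X)
  let U : Fin n → (P → X) → (P → X) → ℝ := fun i x y => ∏ p, u (code i p) (x p) (y p)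
  refine ⟨fun i => tens ι (U i), fun k => ?_, fun δ hδ => ?_⟩
  · have hBB : BB (fun (x y : P → X) => ∏ p, T (code k p) (x p) (y p)) :=
      BB_pi (fun p => T (code k p)) (fun p => hT _)
    have h1 := pair_le ι E hE hEι _ (U k) hBB
    refine le_trans ?_ h1
    have h2 := prod_pair (fun p : P => T (code k p)) (fun p => u (code k p))
    rw [h2]
    calc (1:ℝ) / 2 ≤ (1 - ε) ^ (n * n) := hεn
      _ = ∏ _p : P, (1 - ε) := by simp [P]
      _ ≤ _ := Finset.prod_le_prod (fun _ _ => by linarith) (fun p _ => hTu _)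
  · rw [← tens_linear ι δ U]
    exact tens_le ι hι _ (riesz u hPB n δ hδ)

theorem main_neg (s : ℝ) (hs : 2 ≤ s) (C : ℝ)
    (h : ∀ (n : ℕ) (x : Fin n → PiTensorProduct ℝ (fun _ : Fin 2 => Lp ℝ p43 mu01)),
          (∑ k, (PiTensorProduct.projectiveSeminorm (x k)) ^ s) ^ (1 / s)
            ≤ C * ((∑ ε : Fin n → Bool,
                    (PiTensorProduct.projectiveSeminorm
                      (∑ k, (if ε k then (1:ℝ) else -1) • x k)) ^ 2) / 2 ^ n) ^ ((1:ℝ) / 2)) : False := by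
  have hs0 : 0 < s := by linarith
  obtain ⟨n, hn⟩ := exists_nat_gt ((2 * (|C| + 1)) ^ s)
  obtain ⟨x, hx1, hx2⟩ := linf_copies n
  have h1 := h n x
  have hnpos : (0:ℝ) ≤ n := Nat.cast_nonneg n
  have lower : (n:ℝ) ^ (1 / s) * (1 / 2) ≤ (∑ k, (PiTensorProduct.projectiveSeminorm (x k)) ^ s) ^ (1 / s) := by
    have : (n:ℝ) * (1/2) ^ s ≤ ∑ k, (PiTensorProduct.projectiveSeminorm (x k)) ^ s := by
      have h2 : ∑ _k : Fin n, ((1:ℝ)/2) ^ s ≤ ∑ k, (PiTensorProduct.projectiveSeminorm (x k)) ^ s :=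
        Finset.sum_le_sum fun k _ => Real.rpow_le_rpow (by norm_num) (hx1 k) hs0.le
      simpa using h2
    refine le_trans (le_of_eq ?_) (Real.rpow_le_rpow (by positivity) this (by positivity))
    rw [Real.mul_rpow hnpos (by positivity), ← Real.rpow_mul (by norm_num), mul_one_div_cancel hs0.ne',
      Real.rpow_one]
  have upper : C * ((∑ ε : Fin n → Bool,
                    (PiTensorProduct.projectiveSeminorm
                      (∑ k, (if ε k then (1:ℝ) else -1) • x k)) ^ 2) / 2 ^ n) ^ ((1:ℝ) / 2) ≤ |C| := by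
    have h3 : (∑ ε : Fin n → Bool, (PiTensorProduct.projectiveSeminorm
                      (∑ k, (if ε k then (1:ℝ) else -1) • x k)) ^ 2) / 2 ^ n ≤ 1 := by
      rw [div_le_one (by positivity)]
      calc (∑ ε : Fin n → Bool, (PiTensorProduct.projectiveSeminorm
                      (∑ k, (if ε k then (1:ℝ) else -1) • x k)) ^ 2)
          ≤ ∑ _ε : Fin n → Bool, (1:ℝ) := by
            refine Finset.sum_le_sum fun ε _ => ?_
            refine pow_le_one₀ (apply_nonneg _ _) ?_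
            exact hx2 _ (fun i => by by_cases hi : ε i <;> simp [hi])
        _ = 2 ^ n := by simp
    have h4 : ((∑ ε : Fin n → Bool, (PiTensorProduct.projectiveSeminorm
                      (∑ k, (if ε k then (1:ℝ) else -1) • x k)) ^ 2) / 2 ^ n) ^ ((1:ℝ) / 2) ≤ 1 :=
      Real.rpow_le_one (by positivity) h3 (by norm_num)
    have h5 : 0 ≤ ((∑ ε : Fin n → Bool, (PiTensorProduct.projectiveSeminorm
                      (∑ k, (if ε k then (1:ℝ) else -1) • x k)) ^ 2) / 2 ^ n) ^ ((1:ℝ) / 2) := by positivity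
    calc _ ≤ |C| * ((∑ ε : Fin n → Bool, (PiTensorProduct.projectiveSeminorm
                      (∑ k, (if ε k then (1:ℝ) else -1) • x k)) ^ 2) / 2 ^ n) ^ ((1:ℝ) / 2) :=
          mul_le_mul_of_nonneg_right (le_abs_self C) h5
      _ ≤ |C| := mul_le_of_le_one_right (abs_nonneg C) h4
  have h6 : (n:ℝ) ^ (1 / s) * (1 / 2) ≤ |C| := lower.trans (h1.trans upper)
  have h7 : 2 * (|C| + 1) < (n:ℝ) ^ (1 / s) := by
    have h8 := Real.rpow_lt_rpow (by positivity) hn (by positivity : 0 < 1 / s)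
    rwa [← Real.rpow_mul (by positivity), mul_one_div_cancel hs0.ne', Real.rpow_one] at h8
  linarith

end Pool.Agent.Cotype
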